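import Pool.Agent.Helper62.NS.Loc

/-!
# OP: one-sided localisation (lower bound for both Gaussian tails from even and odd moments)
-/

set_option autoImplicit false
open MeasureTheory Set Filter Topology
open scoped ENNReal
open Pool.Agent.Helper62.NS (gm gm_succ gm_pos gm_lower gm_lo gm_hi)

namespace Pool.Agent.Helper62.OP

/-- the pointwise inequality -/
theorem pt_one {x a b : ℝ} (ha : 0 < a) (hab : a ≤ b) {n k l : ℕ} (hl : 1 ≤ l) :
    a / b * x ^ (2 * (n + k)) + x ^ (2 * (n + k) + 1) / b ≤ 2 * (a ^ (2 * k) * x ^ (2 * n)) +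
      (if a ≤ x then 2 * b ^ (2 * (n + k)) else 0) + 2 * (x ^ (2 * (n + k + l)) / b ^ (2 * l)) := by
  have hb : 0 < b := lt_of_lt_of_le ha hab
  have e0 : a / b * x ^ (2 * (n + k)) + x ^ (2 * (n + k) + 1) / b = x ^ (2 * (n + k)) * ((a + x) / b) := by
    rw [pow_succ]
    field_simp
  rw [e0]
  have e1 : ∀ j : ℕ, x ^ (2 * j) = |x| ^ (2 * j) := fun j => by rw [pow_mul, pow_mul, sq_abs]
  rw [e1, e1, e1]
  have hx : 0 ≤ |x| := abs_nonneg x
  have hxx : x ≤ |x| := le_abs_self x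
  have h1 : 0 ≤ 2 * (a ^ (2 * k) * |x| ^ (2 * n)) := by positivity
  have h3 : 0 ≤ 2 * (|x| ^ (2 * (n + k + l)) / b ^ (2 * l)) := by positivity
  have h2 : 0 ≤ (if a ≤ x then 2 * b ^ (2 * (n + k)) else 0) := by
    split_ifs
    · positivity
    · exact le_rfl
  have hy : 0 ≤ |x| ^ (2 * (n + k)) := by positivity
  by_cases h : b < |x|
  · have h4 : (a + x) / b ≤ 2 * (|x| / b) := by
      rw [← mul_div_assoc]
      exact div_le_div_of_nonneg_right (by linarith) hb.le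
    have h5 : 1 ≤ |x| / b := by
      rw [le_div_iff₀ hb]
      linarith
    have h6 : |x| / b ≤ (|x| / b) ^ (2 * l) := by
      calc |x| / b = (|x| / b) ^ 1 := (pow_one _).symm
        _ ≤ (|x| / b) ^ (2 * l) := pow_le_pow_right₀ h5 (by omega)
    have h7 : |x| ^ (2 * (n + k)) * ((a + x) / b) ≤ |x| ^ (2 * (n + k)) * (2 * (|x| / b) ^ (2 * l)) :=
      mul_le_mul_of_nonneg_left (h4.trans (by linarith)) hy
    have h8 : |x| ^ (2 * (n + k)) * (2 * (|x| / b) ^ (2 * l)) = 2 * (|x| ^ (2 * (n + k + l)) / b ^ (2 * l)) := by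
      rw [div_pow, show 2 * (n + k + l) = 2 * (n + k) + 2 * l by ring, pow_add]
      ring
    linarith
  · have hxb : |x| ≤ b := not_lt.1 h
    by_cases h' : x < a
    · by_cases h'' : -a < x
      · have hxa : |x| ≤ a := abs_le.2 ⟨h''.le, h'.le⟩
        have h4 : (a + x) / b ≤ 2 := by
          rw [div_le_iff₀ hb]
          linarith
        have h5 : |x| ^ (2 * (n + k)) ≤ a ^ (2 * k) * |x| ^ (2 * n) := by
          rw [show 2 * (n + k) = 2 * k + 2 * n by ring, pow_add]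
          exact mul_le_mul_of_nonneg_right (pow_le_pow_left₀ hx hxa _) (by positivity)
        have h6 : |x| ^ (2 * (n + k)) * ((a + x) / b) ≤ |x| ^ (2 * (n + k)) * 2 := mul_le_mul_of_nonneg_left h4 hy
        linarith
      · have h4 : (a + x) / b ≤ 0 := div_nonpos_of_nonpos_of_nonneg (by linarith [not_lt.1 h'']) hb.le
        have h6 : |x| ^ (2 * (n + k)) * ((a + x) / b) ≤ 0 := mul_nonpos_of_nonneg_of_nonpos hy h4
        linarith
    · rw [if_pos (not_lt.1 h')]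
      have h4 : (a + x) / b ≤ 2 := by
        rw [div_le_iff₀ hb]
        linarith
      have h5 : |x| ^ (2 * (n + k)) ≤ b ^ (2 * (n + k)) := pow_le_pow_left₀ hx hxb _
      have h6 : |x| ^ (2 * (n + k)) * ((a + x) / b) ≤ |x| ^ (2 * (n + k)) * 2 := mul_le_mul_of_nonneg_left h4 hy
      linarith

/-- the integrated inequality -/
theorem int_one {A B : ℝ} {X : ℝ → ℝ} (hX : Continuous X) {a b : ℝ} (ha : 0 < a) (hab : a ≤ b) (n k l : ℕ) (hl : 1 ≤ l) :
    a / b * (∫ t in Icc A B, X t ^ (2 * (n + k))) + (∫ t in Icc A B, X t ^ (2 * (n + k) + 1)) / b ≤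
      2 * (a ^ (2 * k) * ∫ t in Icc A B, X t ^ (2 * n)) + 2 * b ^ (2 * (n + k)) * volume.real {t | t ∈ Icc A B ∧ a ≤ X t} +
      2 * ((∫ t in Icc A B, X t ^ (2 * (n + k + l))) / b ^ (2 * l)) := by
  have hi : ∀ j : ℕ, IntegrableOn (fun t => X t ^ j) (Icc A B) := fun j => (hX.pow _).integrableOn_Icc
  have hms : MeasurableSet {t | a ≤ X t} := measurableSet_le measurable_const hX.measurable
  have hset : {t | t ∈ Icc A B ∧ a ≤ X t} = {t | a ≤ X t} ∩ Icc A B := by
    ext t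
    simp [and_comm]
  have e2 : ∀ t, (if a ≤ X t then 2 * b ^ (2 * (n + k)) else 0) =
      ({t | a ≤ X t} : Set ℝ).indicator (fun _ => 2 * b ^ (2 * (n + k))) t := by
    intro t
    rw [indicator_apply]
    rfl
  have hi2 : IntegrableOn (fun t => if a ≤ X t then 2 * b ^ (2 * (n + k)) else 0) (Icc A B) := by
    simp_rw [e2]
    refine Integrable.indicator ?_ hms
    exact integrable_const _
  have b1 : Integrable (fun t => a / b * X t ^ (2 * (n + k))) (volume.restrict (Icc A B)) := (hi _).const_mul _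
  have b2 : Integrable (fun t => X t ^ (2 * (n + k) + 1) / b) (volume.restrict (Icc A B)) := (hi _).div_const _
  have ha0 : Integrable (fun t => a ^ (2 * k) * X t ^ (2 * n)) (volume.restrict (Icc A B)) := (hi _).const_mul _
  have ha1 : Integrable (fun t => 2 * (a ^ (2 * k) * X t ^ (2 * n))) (volume.restrict (Icc A B)) := ha0.const_mul _
  have ha02 : Integrable (fun t => X t ^ (2 * (n + k + l)) / b ^ (2 * l)) (volume.restrict (Icc A B)) := (hi _).div_const _
  have ha2 : Integrable (fun t => 2 * (X t ^ (2 * (n + k + l)) / b ^ (2 * l))) (volume.restrict (Icc A B)) :=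
    ha02.const_mul _
  have ha3 : Integrable (fun t => if a ≤ X t then 2 * b ^ (2 * (n + k)) else 0) (volume.restrict (Icc A B)) := hi2
  have ha4 : Integrable (fun t => 2 * (a ^ (2 * k) * X t ^ (2 * n)) + (if a ≤ X t then 2 * b ^ (2 * (n + k)) else 0))
      (volume.restrict (Icc A B)) := ha1.add ha3
  have h1 : ∫ t in Icc A B, (a / b * X t ^ (2 * (n + k)) + X t ^ (2 * (n + k) + 1) / b) ≤
      ∫ t in Icc A B, (2 * (a ^ (2 * k) * X t ^ (2 * n)) +
      (if a ≤ X t then 2 * b ^ (2 * (n + k)) else 0) + 2 * (X t ^ (2 * (n + k + l)) / b ^ (2 * l))) := by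
    refine integral_mono (b1.add b2) (ha4.add ha2) fun t => ?_
    exact pt_one ha hab hl
  rw [integral_add b1 b2, integral_const_mul, integral_div, integral_add ha4 ha2, integral_add ha1 ha3,
    integral_const_mul, integral_const_mul, integral_const_mul, integral_div] at h1
  refine h1.trans (le_of_eq ?_)
  congr 2
  simp_rw [e2]
  rw [integral_indicator hms, setIntegral_const, smul_eq_mul, mul_comm, hset]
  congr 1
  rw [measureReal_restrict_apply' measurableSet_Icc]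

/-- the constant -/
theorem gauss_const {r : ℝ} (hr0 : 0 < r) {m k : ℕ} (hm1 : 1 ≤ m) :
    r / 2 * Real.exp (-k) * Real.exp (-((1 + 2 * r) * m)) ≤ gm m / ((1 + r) ^ m * ((m + k : ℕ) : ℝ) ^ m) := by
  have hmp : (0 : ℝ) < m := by exact_mod_cast hm1
  have hmk : (0 : ℝ) < ((m + k : ℕ) : ℝ) := by exact_mod_cast (by omega : 0 < m + k)
  have hg := gm_lower m hm1
  have h8 : (1 + r) ^ m ≤ Real.exp (r * m) := by
    have h9 : 1 + r ≤ Real.exp r := by linarith [Real.add_one_le_exp r]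
    calc (1 + r) ^ m ≤ Real.exp r ^ m := pow_le_pow_left₀ (by linarith) h9 m
      _ = Real.exp (r * m) := by rw [← Real.exp_nat_mul, mul_comm]
  have h9 : ((m + k : ℕ) : ℝ) ^ m ≤ (m : ℝ) ^ m * Real.exp k := by
    have h10 : ((m + k : ℕ) : ℝ) = m * (k / m + 1) := by
      push_cast
      field_simp
      ring
    have h11 : (k : ℝ) / m + 1 ≤ Real.exp (k / m) := Real.add_one_le_exp _
    rw [h10, mul_pow]
    refine mul_le_mul_of_nonneg_left ?_ (by positivity)
    calc ((k : ℝ) / m + 1) ^ m ≤ Real.exp (k / m) ^ m := pow_le_pow_left₀ (by positivity) h11 m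
      _ = Real.exp k := by
          rw [← Real.exp_nat_mul]
          congr 1
          field_simp
  have h10 : r * Real.exp (-(r * m)) ≤ 1 / m := by
    rw [le_div_iff₀ hmp]
    have h11 : r * m ≤ Real.exp (r * m) := by linarith [Real.add_one_le_exp (r * m)]
    have h12 : Real.exp (r * m) * Real.exp (-(r * m)) = 1 := by rw [← Real.exp_add]; simp
    have h13 := Real.exp_pos (-(r * m))
    nlinarith
  have h11 : Real.exp (-m) / (2 * m) * (Real.exp (-(r * m)) * Real.exp (-k)) ≤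
      gm m / ((1 + r) ^ m * ((m + k : ℕ) : ℝ) ^ m) := by
    rw [le_div_iff₀ (by positivity)]
    refine le_trans ?_ hg
    have h12 : (1 + r) ^ m * ((m + k : ℕ) : ℝ) ^ m ≤ Real.exp (r * m) * ((m : ℝ) ^ m * Real.exp k) :=
      mul_le_mul h8 h9 (by positivity) (by positivity)
    have h13 : Real.exp (r * m) * Real.exp (-(r * m)) = 1 := by rw [← Real.exp_add]; simp
    have h14 : Real.exp (k : ℝ) * Real.exp (-(k : ℝ)) = 1 := by rw [← Real.exp_add]; simp
    calc Real.exp (-m) / (2 * m) * (Real.exp (-(r * m)) * Real.exp (-k)) * ((1 + r) ^ m * ((m + k : ℕ) : ℝ) ^ m)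
        ≤ Real.exp (-m) / (2 * m) * (Real.exp (-(r * m)) * Real.exp (-k)) *
            (Real.exp (r * m) * ((m : ℝ) ^ m * Real.exp k)) := mul_le_mul_of_nonneg_left h12 (by positivity)
      _ = (m : ℝ) ^ m * Real.exp (-m) / (2 * m) * (Real.exp (r * m) * Real.exp (-(r * m))) *
            (Real.exp (k : ℝ) * Real.exp (-(k : ℝ))) := by ring
      _ = _ := by rw [h13, h14, mul_one, mul_one]
  refine le_trans ?_ h11
  have h13 : r / 2 * Real.exp (-k) * Real.exp (-((1 + 2 * r) * m)) =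
      Real.exp (-m) * (r * Real.exp (-(r * m))) / 2 * (Real.exp (-(r * m)) * Real.exp (-k)) := by
    have h14 : Real.exp (-((1 + 2 * r) * m)) = Real.exp (-m) * Real.exp (-(r * m)) * Real.exp (-(r * m)) := by
      rw [← Real.exp_add, ← Real.exp_add]
      congr 1
      ring
    rw [h14]
    ring
  rw [h13]
  refine mul_le_mul_of_nonneg_right ?_ (by positivity)
  have h15 : Real.exp (-m) * (r * Real.exp (-(r * m))) ≤ Real.exp (-m) * (1 / m) :=
    mul_le_mul_of_nonneg_left h10 (Real.exp_pos _).le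
  have h16 : Real.exp (-(m : ℝ)) / (2 * m) = Real.exp (-m) * (1 / m) / 2 := by
    field_simp
  rw [h16]
  linarith

/-- a power beats a square root -/
theorem pow_ge_sqrt {r : ℝ} (hr0 : 0 < r) : ∃ k : ℕ, 1 ≤ k ∧ 64 * Real.sqrt (8 + 4 * (k : ℝ)) ≤ (1 + r) ^ k := by
  have h1 : Tendsto (fun k : ℕ => (k : ℝ) ^ 1 / (1 + r) ^ k) atTop (𝓝 0) :=
    tendsto_pow_const_div_const_pow_of_one_lt 1 (by linarith)
  have h2 : ∀ᶠ k : ℕ in atTop, (k : ℝ) ^ 1 / (1 + r) ^ k < 1 / 256 := h1.eventually (gt_mem_nhds (by norm_num))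
  obtain ⟨k, hk, hk1⟩ := (h2.and (eventually_ge_atTop 1)).exists
  refine ⟨k, hk1, ?_⟩
  have h3 : (0 : ℝ) < (1 + r) ^ k := by positivity
  rw [pow_one, div_lt_div_iff₀ h3 (by norm_num), one_mul] at hk
  have h4 : (1 : ℝ) ≤ k := by exact_mod_cast hk1
  have h5 : Real.sqrt (8 + 4 * (k : ℝ)) ≤ 4 * k := by
    rw [Real.sqrt_le_left (by positivity)]
    nlinarith
  linarith

theorem loc_half {h : ℝ} (hh : 0 < h) (hh1 : h ≤ 1) : ∃ (c : ℝ) (K : ℕ), 0 < c ∧ 1 ≤ K ∧ ∀ (A B T V e : ℝ) (X : ℝ → ℝ),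
    Continuous X → 0 < T → 0 < V → 0 < e → e ≤ 3 →
    (∀ n : ℕ, (n : ℝ) ≤ K * (1 + 1 / V) → 1 / 2 * (gm n * V ^ n) * T ≤ ∫ t in Icc A B, X t ^ (2 * n)) →
    (∀ n : ℕ, (n : ℝ) ≤ K * (1 + 1 / V) → ∫ t in Icc A B, X t ^ (2 * n) ≤ 2 * (gm n * V ^ n) * T) →
    (∀ n : ℕ, (n : ℝ) ≤ K * (1 + 1 / V) → |∫ t in Icc A B, X t ^ (2 * n + 1)| ≤ e / K * (gm n * V ^ n) * T) →
    ENNReal.ofReal (c * Real.exp (-((1 + h) * e ^ 2 / V)) * T) ≤ volume {t | t ∈ Icc A B ∧ e ≤ X t} := by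
  set r : ℝ := h / 5 with hr
  have hr0 : 0 < r := by positivity
  have hr1 : r ≤ 1 / 5 := by rw [hr]; linarith
  obtain ⟨k, hk1, hk⟩ := pow_ge_sqrt hr0
  set Q : ℝ := Real.sqrt (8 + 4 * (k : ℝ)) with hQ
  have hQ0 : 0 < Q := Real.sqrt_pos.2 (by positivity)
  have hQ2 : Q ^ 2 = 8 + 4 * (k : ℝ) := Real.sq_sqrt (by positivity)
  have hk0 : (1 : ℝ) ≤ k := by exact_mod_cast hk1
  refine ⟨1 / (8 * Q) * (r / 2 * Real.exp (-k) * Real.exp (-((1 + 2 * r) * (1 + k)))) * Real.exp (-2), 2 * k + 16,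
    by positivity, by omega, ?_⟩
  intro A B T V e X hX hT hV he he1 hlo hup hod
  -- the level
  set y : ℝ := max (e ^ 2 / V) 1 with hy
  have hy1 : 1 ≤ y := le_max_right _ _
  have hye : e ^ 2 / V ≤ y := le_max_left _ _
  set a : ℝ := Real.sqrt (y * V) with ha
  have hyV : 0 < y * V := by positivity
  have ha0 : 0 < a := Real.sqrt_pos.2 hyV
  have ha2 : a ^ 2 = y * V := Real.sq_sqrt hyV.le
  have hea : e ≤ a := by
    rw [ha]
    refine Real.le_sqrt_of_sq_le ?_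
    rwa [div_le_iff₀ hV] at hye
  have hVi : 0 < 1 / V := by positivity
  have he2 : e ^ 2 ≤ 9 := by nlinarith
  have hy9 : y ≤ 9 * (1 / V) + 1 := by
    rw [hy]
    refine max_le ?_ (by linarith)
    have : e ^ 2 / V = e ^ 2 * (1 / V) := by ring
    rw [this]
    nlinarith
  set n : ℕ := ⌈(1 + r) * y⌉₊ with hn
  have hn1 : (1 + r) * y ≤ n := Nat.le_ceil _
  have hn2 : (n : ℝ) < (1 + r) * y + 1 := Nat.ceil_lt_add_one (by positivity)
  have hbd : ((n + k + k : ℕ) : ℝ) ≤ ((2 * k + 16 : ℕ) : ℝ) * (1 + 1 / V) := by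
    push_cast
    have h2 : (1 + r) * y ≤ (6 / 5) * (9 * (1 / V) + 1) := mul_le_mul (by linarith) hy9 (by linarith) (by norm_num)
    have h4 : (0 : ℝ) ≤ k * (1 / V) := by positivity
    nlinarith
  have hb1 : ((n : ℕ) : ℝ) ≤ ((2 * k + 16 : ℕ) : ℝ) * (1 + 1 / V) := le_trans (by push_cast; linarith) hbd
  have hb2 : ((n + k : ℕ) : ℝ) ≤ ((2 * k + 16 : ℕ) : ℝ) * (1 + 1 / V) := le_trans (by push_cast; linarith) hbd
  set m : ℕ := n + k with hm
  have hm1 : 1 ≤ m := by omega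
  have hmp : (0 : ℝ) < m := by exact_mod_cast hm1
  set b2 : ℝ := (1 + r) * (((m + k : ℕ) : ℝ) * V) with hb2d
  have hmk : (0 : ℝ) < ((m + k : ℕ) : ℝ) := by exact_mod_cast (by omega : 0 < m + k)
  have hb2p : 0 < b2 := by positivity
  set b : ℝ := Real.sqrt b2 with hbd'
  have hbp : 0 < b := Real.sqrt_pos.2 hb2p
  have hbsq : b ^ 2 = b2 := Real.sq_sqrt hb2p.le
  have hGm : 0 < gm m * V ^ m := mul_pos (gm_pos _) (by positivity)
  have hmk' : ((m + k : ℕ) : ℝ) = n + 2 * k := by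
    rw [hm]
    push_cast
    ring
  -- `a ≤ b ≤ Q a`
  have hab : a ≤ b := by
    rw [ha, hbd']
    refine Real.sqrt_le_sqrt ?_
    rw [hb2d, hmk']
    have h1 : y ≤ (1 + r) * (n + 2 * k) := by nlinarith
    nlinarith
  have hbQ : b ≤ Q * a := by
    have h1 : b ^ 2 ≤ (Q * a) ^ 2 := by
      rw [hbsq, mul_pow, hQ2, ha2, hb2d, hmk']
      have h1 : (1 + r) * ((n : ℝ) + 2 * k) ≤ (8 + 4 * k) * y := by
        have h2 : (n : ℝ) ≤ 6 / 5 * y + 1 := by nlinarith
        have h3 : (n : ℝ) + 2 * k ≤ (11 / 5 + 2 * k) * y := by nlinarith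
        have h4 : 0 ≤ (11 / 5 + 2 * (k : ℝ)) * y := by positivity
        calc (1 + r) * ((n : ℝ) + 2 * k) ≤ (6 / 5) * ((11 / 5 + 2 * k) * y) :=
              mul_le_mul (by linarith) h3 (by positivity) (by norm_num)
          _ ≤ (8 + 4 * k) * y := by nlinarith
      nlinarith
    exact le_of_sq_le_sq h1 (by positivity)
  have hratio : 1 / Q ≤ a / b := by
    rw [div_le_div_iff₀ hQ0 hbp]
    linarith
  -- the terms
  have hI := int_one (A := A) (B := B) hX ha0 hab n k k hk1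
  have hrk : 64 * Q ≤ (1 + r) ^ k := hk
  have h1 : a ^ (2 * k) * (∫ t in Icc A B, X t ^ (2 * n)) ≤ 1 / (32 * Q) * (gm m * V ^ m) * T := by
    have h2 : a ^ (2 * k) * (gm n * V ^ n) * (1 + r) ^ k ≤ gm m * V ^ m := by
      have h3 := gm_lo (a2 := a ^ 2) (V := V) (q := 1 + r) (n := n) hV (by positivity) (by positivity) (by
        rw [ha2]
        nlinarith) k
      rwa [← pow_mul] at h3
    have h5 := hup n hb1
    have h6 : a ^ (2 * k) * (∫ t in Icc A B, X t ^ (2 * n)) ≤ a ^ (2 * k) * (2 * (gm n * V ^ n) * T) :=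
      mul_le_mul_of_nonneg_left h5 (by positivity)
    have h7 : 0 ≤ a ^ (2 * k) * (gm n * V ^ n) := mul_nonneg (by positivity) (mul_nonneg (gm_pos _).le (by positivity))
    have h8 : 64 * Q * (a ^ (2 * k) * (gm n * V ^ n)) ≤ gm m * V ^ m := by nlinarith
    have h9 : a ^ (2 * k) * (gm n * V ^ n) ≤ 1 / (64 * Q) * (gm m * V ^ m) := by
      rw [one_div, inv_mul_eq_div, le_div_iff₀ (by positivity)]
      linarith
    calc a ^ (2 * k) * (∫ t in Icc A B, X t ^ (2 * n)) ≤ a ^ (2 * k) * (2 * (gm n * V ^ n) * T) := h6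
      _ = 2 * T * (a ^ (2 * k) * (gm n * V ^ n)) := by ring
      _ ≤ 2 * T * (1 / (64 * Q) * (gm m * V ^ m)) := mul_le_mul_of_nonneg_left h9 (by positivity)
      _ = 1 / (32 * Q) * (gm m * V ^ m) * T := by
          field_simp
          ring
  have h2 : (∫ t in Icc A B, X t ^ (2 * (n + k + k))) / b ^ (2 * k) ≤ 1 / (32 * Q) * (gm m * V ^ m) * T := by
    rw [div_le_iff₀ (by positivity)]
    have h3 := gm_hi (b2 := b2) (V := V) (q := 1 + r) (m := m) (k := k) hV (by positivity) le_rfl le_rfl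
    have h4 := hup (n + k + k) hbd
    rw [pow_mul, hbsq]
    have h7 : 0 ≤ gm (m + k) * V ^ (m + k) := mul_nonneg (gm_pos _).le (by positivity)
    have h8 : 64 * Q * (gm (m + k) * V ^ (m + k)) ≤ b2 ^ k * (gm m * V ^ m) := by nlinarith
    have h9 : gm (m + k) * V ^ (m + k) ≤ 1 / (64 * Q) * (b2 ^ k * (gm m * V ^ m)) := by
      rw [one_div, inv_mul_eq_div, le_div_iff₀ (by positivity)]
      linarith
    refine h4.trans ?_
    calc 2 * (gm (n + k + k) * V ^ (n + k + k)) * T = 2 * T * (gm (m + k) * V ^ (m + k)) := by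
          rw [hm]
          ring
      _ ≤ 2 * T * (1 / (64 * Q) * (b2 ^ k * (gm m * V ^ m))) := mul_le_mul_of_nonneg_left h9 (by positivity)
      _ = 1 / (32 * Q) * (gm m * V ^ m) * T * b2 ^ k := by
          field_simp
          ring
  have h3 := hlo m hb2
  have h3' := hod m hb2
  have h4 : -(a / 16 * (gm m * V ^ m) * T) ≤ ∫ t in Icc A B, X t ^ (2 * m + 1) := by
    have h5 : e / ((2 * k + 16 : ℕ) : ℝ) * (gm m * V ^ m) * T ≤ a / 16 * (gm m * V ^ m) * T := by
      refine mul_le_mul_of_nonneg_right (mul_le_mul_of_nonneg_right ?_ hGm.le) hT.le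
      refine div_le_div₀ ha0.le hea (by norm_num) ?_
      push_cast
      linarith
    have := neg_le_of_abs_le (h3'.trans h5)
    linarith
  have h5 : a / b * (7 / 16) * ((gm m * V ^ m) * T) ≤
      a / b * (∫ t in Icc A B, X t ^ (2 * m)) + (∫ t in Icc A B, X t ^ (2 * m + 1)) / b := by
    have h6 : a / b * (1 / 2 * (gm m * V ^ m) * T) ≤ a / b * (∫ t in Icc A B, X t ^ (2 * m)) :=
      mul_le_mul_of_nonneg_left h3 (by positivity)
    have h7 : -(a / 16 * (gm m * V ^ m) * T) / b ≤ (∫ t in Icc A B, X t ^ (2 * m + 1)) / b :=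
      div_le_div_of_nonneg_right h4 hbp.le
    have h8 : a / b * (7 / 16) * ((gm m * V ^ m) * T) =
        a / b * (1 / 2 * (gm m * V ^ m) * T) + -(a / 16 * (gm m * V ^ m) * T) / b := by
      ring
    linarith
  have hGT : 0 < gm m * V ^ m * T := by positivity
  have h6 : 1 / Q * (1 / 4) * ((gm m * V ^ m) * T) ≤ 2 * b ^ (2 * m) * volume.real {t | t ∈ Icc A B ∧ a ≤ X t} := by
    have h7 : 1 / Q * (7 / 16) * ((gm m * V ^ m) * T) ≤ a / b * (7 / 16) * ((gm m * V ^ m) * T) :=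
      mul_le_mul_of_nonneg_right (mul_le_mul_of_nonneg_right hratio (by norm_num)) hGT.le
    have h8 : 1 / (32 * Q) * (gm m * V ^ m) * T = 1 / Q * (1 / 32) * ((gm m * V ^ m) * T) := by
      field_simp
    rw [h8] at h1 h2
    have h9 : 0 ≤ 1 / Q * ((gm m * V ^ m) * T) := by positivity
    have h10 : 1 / Q * (7 / 16) * ((gm m * V ^ m) * T) ≤
        2 * (1 / Q * (1 / 32) * ((gm m * V ^ m) * T)) + 2 * b ^ (2 * m) * volume.real {t | t ∈ Icc A B ∧ a ≤ X t} +
          2 * (1 / Q * (1 / 32) * ((gm m * V ^ m) * T)) := by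
      linarith
    linarith
  rw [pow_mul, hbsq] at h6
  -- the constant
  have hfin : volume {t | t ∈ Icc A B ∧ a ≤ X t} ≠ ⊤ :=
    ((measure_mono fun t ht => ht.1).trans_lt (by simp : volume (Icc A B) < ⊤)).ne
  refine le_trans ?_ (measure_mono (show {t | t ∈ Icc A B ∧ a ≤ X t} ⊆ {t | t ∈ Icc A B ∧ e ≤ X t} from
    fun t ht => ⟨ht.1, hea.trans ht.2⟩))
  rw [← ofReal_measureReal hfin]
  refine ENNReal.ofReal_le_ofReal ?_
  have h7 : 1 / (8 * Q) * (gm m / ((1 + r) ^ m * ((m + k : ℕ) : ℝ) ^ m)) * T ≤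
      volume.real {t | t ∈ Icc A B ∧ a ≤ X t} := by
    have h8 : b2 ^ m = (1 + r) ^ m * ((m + k : ℕ) : ℝ) ^ m * V ^ m := by
      rw [hb2d, mul_pow, mul_pow, mul_assoc]
    have h9 : 1 / (8 * Q) * (gm m / ((1 + r) ^ m * ((m + k : ℕ) : ℝ) ^ m)) * T =
        1 / Q * (1 / 4) * ((gm m * V ^ m) * T) / (2 * b2 ^ m) := by
      rw [h8]
      have : V ^ m ≠ 0 := by positivity
      field_simp
      ring
    rw [h9, div_le_iff₀ (by positivity)]
    linarith
  refine le_trans ?_ h7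
  refine mul_le_mul_of_nonneg_right ?_ hT.le
  have hg := gauss_const hr0 (m := m) (k := k) hm1
  have h8 : 1 / (8 * Q) * (r / 2 * Real.exp (-k) * Real.exp (-((1 + 2 * r) * m))) ≤
      1 / (8 * Q) * (gm m / ((1 + r) ^ m * ((m + k : ℕ) : ℝ) ^ m)) := mul_le_mul_of_nonneg_left hg (by positivity)
  refine le_trans ?_ h8
  have h13 : (1 + 2 * r) * (m : ℝ) ≤ (1 + 2 * r) * (1 + k) + 2 + (1 + h) * e ^ 2 / V := by
    have h14 : (m : ℝ) ≤ (1 + r) * y + (1 + k) := by
      rw [hm]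
      push_cast
      linarith
    have h15 : (1 + 2 * r) * (m : ℝ) ≤ (1 + 2 * r) * ((1 + r) * y + (1 + k)) :=
      mul_le_mul_of_nonneg_left h14 (by linarith)
    have h16 : (1 + 2 * r) * (1 + r) ≤ 1 + h := by
      rw [hr]
      nlinarith
    have h17 : (1 + 2 * r) * ((1 + r) * y) ≤ (1 + h) * y := by
      have h18 : (1 + 2 * r) * ((1 + r) * y) = ((1 + 2 * r) * (1 + r)) * y := by ring
      rw [h18]
      exact mul_le_mul_of_nonneg_right h16 (by positivity)
    have h18 : (1 + h) * y ≤ 2 + (1 + h) * e ^ 2 / V := by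
      have h19 : 0 ≤ (1 + h) * e ^ 2 / V := by positivity
      have h20 : (1 + h) * e ^ 2 / V = (1 + h) * (e ^ 2 / V) := by ring
      rcases max_cases (e ^ 2 / V) 1 with ⟨h21, _⟩ | ⟨h21, _⟩
      · rw [hy, h21]
        linarith
      · rw [hy, h21]
        linarith
    linarith
  have h14 : Real.exp (-((1 + 2 * r) * (1 + k))) * Real.exp (-2) * Real.exp (-((1 + h) * e ^ 2 / V)) ≤
      Real.exp (-((1 + 2 * r) * m)) := by
    rw [← Real.exp_add, ← Real.exp_add]
    exact Real.exp_le_exp.2 (by linarith)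
  calc 1 / (8 * Q) * (r / 2 * Real.exp (-k) * Real.exp (-((1 + 2 * r) * (1 + k)))) * Real.exp (-2) *
        Real.exp (-((1 + h) * e ^ 2 / V))
      = 1 / (8 * Q) * (r / 2 * Real.exp (-k) * (Real.exp (-((1 + 2 * r) * (1 + k))) * Real.exp (-2) *
          Real.exp (-((1 + h) * e ^ 2 / V)))) := by ring
    _ ≤ _ := mul_le_mul_of_nonneg_left (mul_le_mul_of_nonneg_left h14 (by positivity)) (by positivity)

/-- O9: one-sided localisation -/
theorem loc_one {h : ℝ} (hh : 0 < h) (hh1 : h ≤ 1) : ∃ (c : ℝ) (K : ℕ), 0 < c ∧ 1 ≤ K ∧ ∀ (A B T V e : ℝ) (X : ℝ → ℝ),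
    Continuous X → 0 < T → 0 < V → 0 < e → e ≤ 3 →
    (∀ n : ℕ, (n : ℝ) ≤ K * (1 + 1 / V) → 1 / 2 * (gm n * V ^ n) * T ≤ ∫ t in Icc A B, X t ^ (2 * n)) →
    (∀ n : ℕ, (n : ℝ) ≤ K * (1 + 1 / V) → ∫ t in Icc A B, X t ^ (2 * n) ≤ 2 * (gm n * V ^ n) * T) →
    (∀ n : ℕ, (n : ℝ) ≤ K * (1 + 1 / V) → |∫ t in Icc A B, X t ^ (2 * n + 1)| ≤ e / K * (gm n * V ^ n) * T) →
    ENNReal.ofReal (c * Real.exp (-((1 + h) * e ^ 2 / V)) * T) ≤ volume {t | t ∈ Icc A B ∧ e ≤ X t} ∧
    ENNReal.ofReal (c * Real.exp (-((1 + h) * e ^ 2 / V)) * T) ≤ volume {t | t ∈ Icc A B ∧ X t ≤ -e} := by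
  obtain ⟨c, K, hc, hK, H⟩ := loc_half hh hh1
  refine ⟨c, K, hc, hK, fun A B T V e X hX hT hV he he1 hlo hup hod => ⟨H A B T V e X hX hT hV he he1 hlo hup hod, ?_⟩⟩
  have h1 := H A B T V e (fun t => -X t) hX.neg hT hV he he1
    (fun n hn => by simpa only [Even.neg_pow (even_two_mul n)] using hlo n hn)
    (fun n hn => by simpa only [Even.neg_pow (even_two_mul n)] using hup n hn)
    (fun n hn => by
      have h2 : ∀ t, (-X t) ^ (2 * n + 1) = -(X t ^ (2 * n + 1)) := fun t => Odd.neg_pow ⟨n, rfl⟩ _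
      simp only [h2, integral_neg, abs_neg]
      exact hod n hn)
  refine h1.trans (measure_mono fun t ht => ⟨ht.1, ?_⟩)
  have h3 : e ≤ -X t := ht.2
  linarith

end Pool.Agent.Helper62.OP
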