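import Pool.Agent.Helper62.OP.Defs
import Pool.Agent.Helper60.OP.Inc
import Pool.Agent.Helper69.NS.Loss
import Pool.Agent.Helper82.OP.Conv

/-!
# OP: the loss in the integrated explicit formula
-/

set_option autoImplicit false
open MeasureTheory Set Filter Topology
open Pool.Agent.Helper57.Zeta Pool.Agent.Helper57.LH Pool.Agent.Helper57.ED
open Pool.Agent.Helper54.LG (za zb qk SS MM)
open Pool.Agent.Helper93.UG (zc sp)
open Pool.Agent.Helper69.UG (XX NX near far)
open Pool.Agent.Helper57.TX (QX DP rs)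
open Pool.Agent.Helper57.NS (cnt)

namespace Pool.Agent.Helper62.OP

/-- the smoothing scale is between a power of `L` and `L` -/
theorem ms_range {k d : ℝ} (hk : 0 < k) (hkd : k ≤ d / 100) (hd : 0 < d) (hd1 : d ≤ 1) {T R L : ℝ} (hL : 1 ≤ L)
    (h : Rng d T R L) : L ^ (d / 2) ≤ Ms k R L ∧ Ms k R L ≤ L ∧ 1 ≤ R ∧ R ≤ L := by
  obtain ⟨-, h2, h3⟩ := h
  have hL0 : 0 < L := by linarith
  have hR1 : 1 ≤ R := (Real.one_le_rpow hL hd.le).trans h2
  have hRL : R ≤ L := by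
    refine h3.trans ?_
    calc L ^ (1 - d) ≤ L ^ (1 : ℝ) := Real.rpow_le_rpow_of_exponent_le hL (by linarith)
      _ = L := Real.rpow_one L
  have hR0 : 0 < R := by linarith
  have hU1 : 1 ≤ L / R := (one_le_div hR0).2 hRL
  have hU2 : L / R ≤ L := div_le_self hL0.le hR1
  have h4 : L ^ (-k) ≤ (L / R) ^ (-k) := Real.rpow_le_rpow_of_nonpos (by linarith) hU2 (by linarith)
  have h5 : (L / R) ^ (-k) ≤ 1 := Real.rpow_le_one_of_one_le_of_nonpos hU1 (by linarith)
  refine ⟨?_, ?_, hR1, hRL⟩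
  · unfold Ms
    calc L ^ (d / 2) ≤ L ^ (d + -k) := Real.rpow_le_rpow_of_exponent_le hL (by linarith)
      _ = L ^ d * L ^ (-k) := Real.rpow_add hL0 _ _
      _ ≤ R * (L / R) ^ (-k) := mul_le_mul h2 h4 (by positivity) hR0.le
  · unfold Ms
    calc R * (L / R) ^ (-k) ≤ R * 1 := mul_le_mul_of_nonneg_left h5 hR0.le
      _ ≤ L := by linarith

theorem log_sq_le {M : ℝ} (hM : 1 ≤ M) : Real.log M ^ 2 ≤ 16 * M ^ (1 / 2 : ℝ) := by
  have hM0 : 0 < M := by linarith
  have h1 : Real.log M ≤ M ^ (1 / 4 : ℝ) / (1 / 4) := Real.log_le_rpow_div hM0.le (by norm_num)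
  have h0 : 0 ≤ Real.log M := Real.log_nonneg hM
  have h2 : (M ^ (1 / 4 : ℝ)) ^ 2 = M ^ (1 / 2 : ℝ) := by
    rw [← Real.rpow_natCast, ← Real.rpow_mul hM0.le]
    norm_num
  have h3 : 0 ≤ M ^ (1 / 4 : ℝ) := by positivity
  rw [← h2]
  nlinarith

/-- O2b -/
theorem inc_loss {k d : ℝ} (hk : 0 < k) (hkd : k ≤ d / 100) (hd : 0 < d) (hd1 : d ≤ 1) (B : ℝ) (hB : 0 < B) :
    ∃ c C T₀ : ℝ, 0 < c ∧ 1 ≤ C ∧ ∀ T R L : ℝ, T₀ ≤ T → C ≤ L → Rng d T R L →
    ∃ E : Set ℝ, volume E ≤ ENNReal.ofReal (C * L ^ (-B) * T) ∧ ∀ t ∈ Icc T (2 * T), t ∉ E → ∀ x : ℝ, |x| ≤ L →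
      |1 / (Ms k R L * sp T) * ∫ u in t..(t + x * sp T), (NX (Xo k T R L) u - (MM (Xo k T R L) u - SS (Xo k T R L) u))| ≤
        C * L ^ (-c) := by
  obtain ⟨C1, hC1, h1⟩ := Pool.Agent.Helper60.OP.inc_pt
  obtain ⟨q, hq⟩ : ∃ q : ℕ, 2 * (B + 1) / d ≤ q := exists_nat_ge _
  have hq' : B + 1 ≤ d / 2 * q := by
    rw [div_le_iff₀ hd] at hq
    linarith
  obtain ⟨C2, M0, T2, hC2, hM0, h2⟩ := Pool.Agent.Helper69.NS.loss_pow q
  obtain ⟨Aq, hAq⟩ : ∃ Aq : ℝ, Aq = 8 * (q + 3) := ⟨_, rfl⟩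
  have hA0 : 0 < Aq := by rw [hAq]; positivity
  -- `Aq log M ≤ M`, `Aq log M > 0`
  obtain ⟨M1, hM1⟩ : ∃ M1 : ℝ, ∀ M : ℝ, M1 ≤ M → Aq * Real.log M ≤ M := by
    have h3 := (Real.isLittleO_log_id_atTop.def (show (0:ℝ) < 1 / Aq by positivity))
    obtain ⟨M1, hM1⟩ := eventually_atTop.1 (h3.and (eventually_ge_atTop (1:ℝ)))
    refine ⟨M1, fun M hM => ?_⟩
    obtain ⟨h4, h5⟩ := hM1 M hM
    simp only [id, Real.norm_eq_abs] at h4
    rw [abs_of_nonneg (Real.log_nonneg h5), abs_of_nonneg (by linarith : (0:ℝ) ≤ M), one_div, inv_mul_eq_div,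
      le_div_iff₀ hA0] at h4
    linarith
  obtain ⟨L1, hL1⟩ : ∃ L1 : ℝ, ∀ L : ℝ, L1 ≤ L → max (max M0 M1) 2 ≤ L ^ (d / 2) :=
    eventually_atTop.1 ((tendsto_rpow_atTop (show (0:ℝ) < d / 2 by linarith)).eventually_ge_atTop _)
  obtain ⟨C3, hC3⟩ : ∃ C3 : ℝ, C3 = C1 * C2 * (16 * Aq ^ 2 + 1) := ⟨_, rfl⟩
  have hC3' : 0 < C3 := by rw [hC3]; positivity
  refine ⟨d / 4, max (max L1 1) (9 * C2 + C3), max T2 30, by linarith, (le_max_right _ _).trans (le_max_left _ _), ?_⟩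
  intro T R L hT hL hR
  have hL1' : L1 ≤ L := ((le_max_left _ _).trans (le_max_left _ _)).trans hL
  have hL : (1:ℝ) ≤ L := ((le_max_right _ _).trans (le_max_left _ _)).trans hL
  have hL0 : 0 < L := by linarith
  have hT2 : T2 ≤ T := (le_max_left _ _).trans hT
  have hT30 : (30:ℝ) ≤ T := (le_max_right _ _).trans hT
  obtain ⟨hM1a, hM1b, hR1, hRL⟩ := ms_range hk hkd hd hd1 hL hR
  have hbig := (hL1 L hL1').trans hM1a
  set M := Ms k R L with hMdef
  have hMM0 : M0 ≤ M := (le_max_left _ _).trans ((le_max_left _ _).trans hbig)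
  have hMM1 : M1 ≤ M := (le_max_right _ _).trans ((le_max_left _ _).trans hbig)
  have hM2 : 2 ≤ M := (le_max_right _ _).trans hbig
  have hMp : 0 < M := by linarith
  have hlog1 : 1 ≤ Real.log T := by
    rw [Real.le_log_iff_exp_le (by linarith)]
    have := Real.exp_one_lt_d9
    linarith
  have hLT : L ≤ Real.log T := by
    refine hR.1.trans ?_
    calc Real.log T ^ (1 - d) ≤ Real.log T ^ (1 : ℝ) := Real.rpow_le_rpow_of_exponent_le hlog1 (by linarith)
      _ = Real.log T := Real.rpow_one _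
  have hMT : M ≤ Real.log T := hM1b.trans hLT
  obtain ⟨-, hs, hX, -, hMX⟩ := Pool.Agent.Helper82.OP.par0 (k := k) (by linarith : 0 < R) hRL (by linarith : (3:ℝ) ≤ T)
  obtain ⟨Bs, hBs, h3⟩ := h2 T M hT2 hMM0 hMT
  -- the net
  obtain ⟨N, hN⟩ : ∃ N : ℕ, N = ⌈L⌉₊ + 1 := ⟨_, rfl⟩
  have hNL : L + 1 ≤ (N : ℝ) := by
    rw [hN]
    push_cast
    linarith [Nat.le_ceil L]
  have hNU : (N : ℝ) ≤ L + 2 := by
    rw [hN]
    push_cast
    linarith [Nat.ceil_lt_add_one hL0.le]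
  refine ⟨⋃ j ∈ Finset.range (2 * N + 1), (fun u => u + ((j : ℝ) - N) * sp T) ⁻¹' Bs, ?_, ?_⟩
  · have h4 : volume (⋃ j ∈ Finset.range (2 * N + 1), (fun u => u + ((j : ℝ) - N) * sp T) ⁻¹' Bs) ≤
        ∑ j ∈ Finset.range (2 * N + 1), volume ((fun u : ℝ => u + ((j : ℝ) - N) * sp T) ⁻¹' Bs) :=
      measure_biUnion_finset_le _ _
    refine h4.trans ?_
    simp only [measure_preimage_add_right]
    rw [Finset.sum_const, Finset.card_range, nsmul_eq_mul]
    have h5 : ((2 * N + 1 : ℕ) : ENNReal) = ENNReal.ofReal (2 * N + 1) := by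
      rw [← ENNReal.ofReal_natCast]
      push_cast
      rfl
    rw [h5]
    refine (mul_le_mul_right hBs _).trans ?_
    rw [← ENNReal.ofReal_mul (by positivity)]
    refine ENNReal.ofReal_le_ofReal ?_
    have h6 : (L ^ (d / 2)) ^ q ≤ M ^ q := pow_le_pow_left₀ (by positivity) hM1a q
    have h7 : L ^ (B + 1) ≤ M ^ q := by
      refine le_trans ?_ h6
      rw [← Real.rpow_natCast, ← Real.rpow_mul hL0.le]
      exact Real.rpow_le_rpow_of_exponent_le hL hq'
    have h8 : C2 / M ^ q ≤ C2 / L ^ (B + 1) := div_le_div_of_nonneg_left hC2.le (by positivity) h7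
    have h9 : C2 / L ^ (B + 1) * L = C2 * L ^ (-B) := by
      rw [Real.rpow_add hL0, Real.rpow_one, Real.rpow_neg hL0.le]
      field_simp
    have h10 : (2 * (N : ℝ) + 1) ≤ 9 * L := by linarith
    calc (2 * (N : ℝ) + 1) * (C2 / M ^ q * T) ≤ 9 * L * (C2 / L ^ (B + 1) * T) := by
          refine mul_le_mul h10 (mul_le_mul_of_nonneg_right h8 (by linarith)) (by positivity) (by positivity)
      _ = 9 * (C2 / L ^ (B + 1) * L) * T := by ring
      _ = 9 * C2 * L ^ (-B) * T := by rw [h9]; ring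
      _ ≤ max (max L1 1) (9 * C2 + C3) * L ^ (-B) * T := by
          refine mul_le_mul_of_nonneg_right (mul_le_mul_of_nonneg_right ?_ (by positivity)) (by linarith)
          exact le_trans (by linarith) (le_max_right _ _)
  · intro t ht htE x hx
    -- the two points
    have key : ∀ y : ℝ, |y| ≤ L → near T M (Aq * Real.log M) (t + y * sp T) ≤ C2 * M ∧
        far T M (Aq * Real.log M) (t + y * sp T) ≤ C2 / M ^ 2 := by
      intro y hy
      have hy1 := abs_le.1 hy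
      have hf1 := Int.floor_le y
      have hf2 := Int.lt_floor_add_one y
      have hj0 : 0 ≤ ⌊y⌋ + (N : ℤ) := by
        have h4 : (-1 : ℝ) < ((⌊y⌋ + (N : ℤ) : ℤ) : ℝ) := by
          push_cast
          linarith
        have h5 : (-1 : ℤ) < ⌊y⌋ + (N : ℤ) := by exact_mod_cast h4
        omega
      obtain ⟨j, hj⟩ := Int.eq_ofNat_of_zero_le hj0
      have hjr : (j : ℝ) - N = ⌊y⌋ := by
        have : ((⌊y⌋ + (N : ℤ) : ℤ) : ℝ) = ((j : ℤ) : ℝ) := by rw [hj]
        push_cast at this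
        linarith
      have hjN : j < 2 * N + 1 := by
        have h4 : (j : ℝ) < ((2 * N + 1 : ℕ) : ℝ) := by
          push_cast
          linarith
        exact_mod_cast h4
      have hnot : t + ((j : ℝ) - N) * sp T ∉ Bs := by
        intro h4
        exact htE (mem_biUnion (Finset.mem_coe.2 (Finset.mem_range.2 hjN)) h4)
      have hjabs : |(j : ℝ) - N| ≤ L + 1 := by
        rw [hjr, abs_le]
        constructor <;> linarith
      have hsL : (L + 1) * sp T ≤ 13 := by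
        have h4 : sp T = 2 * Real.pi / Real.log T := rfl
        rw [h4, ← mul_div_assoc, div_le_iff₀ (by linarith)]
        have h5 := Real.pi_lt_d2
        have h6 := Real.pi_pos
        nlinarith
      have hdist : |((j : ℝ) - N) * sp T| ≤ 13 := by
        rw [abs_mul, abs_of_pos hs]
        exact (mul_le_mul_of_nonneg_right hjabs hs.le).trans hsL
      have hd2 := abs_le.1 hdist
      have hJJ : t + ((j : ℝ) - N) * sp T ∈ Pool.Agent.Helper57.TX.JJ T := by
        refine ⟨?_, ?_⟩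
        · linarith [ht.1]
        · linarith [ht.2]
      obtain ⟨-, h4⟩ := h3 _ hJJ hnot
      have h5 : |t + y * sp T - (t + ((j : ℝ) - N) * sp T)| ≤ sp T := by
        have h6 : t + y * sp T - (t + ((j : ℝ) - N) * sp T) = (y - ⌊y⌋) * sp T := by
          rw [hjr]
          ring
        rw [h6, abs_mul, abs_of_pos hs, abs_of_nonneg (by linarith)]
        nlinarith
      have h6 := h4 _ h5
      rw [← hAq] at h6
      exact h6.2
    have hk0 := key 0 (by rw [abs_zero]; exact hL0.le)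
    rw [zero_mul, add_zero] at hk0
    have hkx := key x hx
    have hlM : 0 < Real.log M := Real.log_pos (by linarith)
    have h4 := h1 T M (Aq * Real.log M) t (x * sp T) (by linarith) hMp (by positivity) (hM1 M hMM1)
    have hXo : Xo k T R L = XX T M := rfl
    rw [hXo] at hX hMX ⊢
    rw [abs_mul, abs_of_pos (by positivity : 0 < 1 / (M * sp T))]
    have h5 : (Aq * Real.log M / M) ^ 2 * (near T M (Aq * Real.log M) t + near T M (Aq * Real.log M) (t + x * sp T)) +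
        (far T M (Aq * Real.log M) t + far T M (Aq * Real.log M) (t + x * sp T)) ≤
        2 * C2 * (16 * Aq ^ 2 + 1) * L ^ (-(d / 4)) := by
      have h6 : (Aq * Real.log M / M) ^ 2 *
          (near T M (Aq * Real.log M) t + near T M (Aq * Real.log M) (t + x * sp T)) ≤
          (Aq * Real.log M / M) ^ 2 * (2 * (C2 * M)) :=
        mul_le_mul_of_nonneg_left (by linarith [hk0.1, hkx.1]) (sq_nonneg _)
      have hM12 : M ^ (1 / 2 : ℝ) * M ^ (1 / 2 : ℝ) = M := by
        rw [← Real.rpow_add hMp]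
        norm_num
      have hM12p : 0 < M ^ (1 / 2 : ℝ) := by positivity
      have hMd : L ^ (d / 4) ≤ M ^ (1 / 2 : ℝ) := by
        have h7 : L ^ (d / 4) = (L ^ (d / 2)) ^ (1 / 2 : ℝ) := by
          rw [← Real.rpow_mul hL0.le]
          congr 1
          ring
        rw [h7]
        exact Real.rpow_le_rpow (by positivity) hM1a (by norm_num)
      have h7 : (Aq * Real.log M / M) ^ 2 * (2 * (C2 * M)) = 2 * C2 * Aq ^ 2 * (Real.log M ^ 2 / M) := by
        field_simp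
      have h8 : Real.log M ^ 2 / M ≤ 16 / M ^ (1 / 2 : ℝ) := by
        rw [div_le_div_iff₀ hMp hM12p]
        calc Real.log M ^ 2 * M ^ (1 / 2 : ℝ) ≤ 16 * M ^ (1 / 2 : ℝ) * M ^ (1 / 2 : ℝ) :=
              mul_le_mul_of_nonneg_right (log_sq_le (by linarith)) hM12p.le
          _ = 16 * M := by rw [mul_assoc, hM12]
      have h9 : 1 / M ^ (1 / 2 : ℝ) ≤ L ^ (-(d / 4)) := by
        rw [Real.rpow_neg hL0.le, ← one_div]
        exact one_div_le_one_div_of_le (by positivity) hMd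
      have h10 : C2 / M ^ 2 ≤ C2 * (1 / M ^ (1 / 2 : ℝ)) := by
        rw [← mul_one_div]
        refine mul_le_mul_of_nonneg_left (one_div_le_one_div_of_le hM12p ?_) hC2.le
        calc M ^ (1 / 2 : ℝ) ≤ M ^ (2 : ℝ) := Real.rpow_le_rpow_of_exponent_le (by linarith) (by norm_num)
          _ = M ^ 2 := by norm_num
      have h11 : 2 * C2 * Aq ^ 2 * (Real.log M ^ 2 / M) ≤ 2 * C2 * Aq ^ 2 * (16 / M ^ (1 / 2 : ℝ)) :=
        mul_le_mul_of_nonneg_left h8 (by positivity)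
      have h12 : 2 * C2 * Aq ^ 2 * (16 / M ^ (1 / 2 : ℝ)) + 2 * (C2 * (1 / M ^ (1 / 2 : ℝ))) =
          2 * C2 * (16 * Aq ^ 2 + 1) * (1 / M ^ (1 / 2 : ℝ)) := by
        ring
      have h13 : 2 * C2 * (16 * Aq ^ 2 + 1) * (1 / M ^ (1 / 2 : ℝ)) ≤ 2 * C2 * (16 * Aq ^ 2 + 1) * L ^ (-(d / 4)) :=
        mul_le_mul_of_nonneg_left h9 (by positivity)
      linarith [hk0.2, hkx.2]
    have h6 : 1 / (M * sp T) * (C1 / XX T M) = C1 / (2 * Real.pi) := by
      rw [hMX]
      field_simp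
    have h7 : 0 < C1 / XX T M := by positivity
    calc 1 / (M * sp T) * |∫ u in t..(t + x * sp T), (NX (XX T M) u - (MM (XX T M) u - SS (XX T M) u))|
        ≤ 1 / (M * sp T) * (C1 / XX T M * (2 * C2 * (16 * Aq ^ 2 + 1) * L ^ (-(d / 4)))) :=
          mul_le_mul_of_nonneg_left (h4.trans (mul_le_mul_of_nonneg_left h5 h7.le)) (by positivity)
      _ = 1 / (M * sp T) * (C1 / XX T M) * (2 * C2 * (16 * Aq ^ 2 + 1) * L ^ (-(d / 4))) := by ring
      _ = C3 * L ^ (-(d / 4)) * (1 / Real.pi) := by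
          rw [h6, hC3]
          field_simp
      _ ≤ C3 * L ^ (-(d / 4)) * 1 := by
          refine mul_le_mul_of_nonneg_left ?_ (by positivity)
          rw [div_le_one Real.pi_pos]
          linarith [Real.pi_gt_three]
      _ ≤ max (max L1 1) (9 * C2 + C3) * L ^ (-(d / 4)) := by
          rw [mul_one]
          refine mul_le_mul_of_nonneg_right ?_ (by positivity)
          exact le_trans (by linarith) (le_max_right _ _)

end Pool.Agent.Helper62.OP
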