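import Pool.Agent.Helper57.NS.Defs

/-!
# OP: the exponent of number rigidity is optimal among all linear predictions: definitions

`s = sp T`, `U = L/R`, the smoothing scale is `M = R U ^ (-k)`, the far scale `L U ^ k`, and `X = log T / M`.
-/

set_option autoImplicit false
open MeasureTheory Set Filter Topology
open Pool.Agent.Helper57.Zeta Pool.Agent.Helper57.LH Pool.Agent.Helper57.ED
open Pool.Agent.Helper54.LG (za zb qk SS MM)
open Pool.Agent.Helper93.UG (zc sp)
open Pool.Agent.Helper69.UG (XX NX near far)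
open Pool.Agent.Helper57.TX (QX DP rs)
open Pool.Agent.Helper57.NS (cnt)

namespace Pool.Agent.Helper62.OP

/-- The range of the parameters. -/
def Rng (d T R L : ℝ) : Prop := L ≤ Real.log T ^ (1 - d) ∧ L ^ d ≤ R ∧ R ≤ L ^ (1 - d)

/-- The smoothing scale. -/
noncomputable def Ms (k R L : ℝ) : ℝ := R * (L / R) ^ (-k)

/-- The far scale. -/
noncomputable def Lf (k R L : ℝ) : ℝ := L * (L / R) ^ k

/-- The length of the prime sums. -/
noncomputable def Xo (k T R L : ℝ) : ℝ := XX T (Ms k R L)

/-- A finite family of intervals in `[-L, L]`, outside of `(-R, R)`, with real weights. -/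
structure Fam (R L : ℝ) where
  n : ℕ
  a : Fin n → ℝ
  b : Fin n → ℝ
  c : Fin n → ℝ
  le : ∀ i, a i ≤ b i
  out : ∀ i, (-L ≤ a i ∧ b i ≤ -R) ∨ (R ≤ a i ∧ b i ≤ L)

/-- The total weight, with the window. -/
noncomputable def Fam.B {R L : ℝ} (F : Fam R L) : ℝ := 1 + ∑ i, |F.c i|

/-- The increments of `g` over the intervals, with the weights (the window `[-R, R]` has the weight `1`). -/
noncomputable def Ev {R L : ℝ} (F : Fam R L) (g : ℝ → ℝ) : ℝ :=
  (g R - g (-R)) + ∑ i, F.c i * (g (F.b i) - g (F.a i))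

/-- The same for complex functions. -/
noncomputable def EvC {R L : ℝ} (F : Fam R L) (g : ℝ → ℂ) : ℂ :=
  (g R - g (-R)) + ∑ i, (F.c i : ℂ) * (g (F.b i) - g (F.a i))

/-- The statistic: the number of the zeros in the window plus the weighted numbers in the intervals. -/
noncomputable def St {R L : ℝ} (F : Fam R L) (T t : ℝ) : ℝ :=
  cnt T t (Icc (-R) R) + ∑ i, F.c i * cnt T t (Icc (F.a i) (F.b i))

/-- The density of the smoothing. -/
noncomputable def rho (k T R L v : ℝ) : ℝ := qk 0 (Xo k T R L * v) / (Ms k R L * sp T)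

/-- The smoothed number of the zeros between `t` and `t + x s`. -/
noncomputable def Nt (k T R L t x : ℝ) : ℝ := 1 / (Ms k R L * sp T) * ∫ u in t..(t + x * sp T), NX (Xo k T R L) u

/-- The weight of a prime. -/
noncomputable def pr (k T R L : ℝ) (p : ℕ) : ℝ := (1 - Real.log p / Xo k T R L) ^ 2

/-- The prime sum, primitive. -/
noncomputable def Pp (k T R L t x : ℝ) : ℝ :=
  -(1 / Real.pi) * ∑ p ∈ QX (Xo k T R L), (Real.sqrt p)⁻¹ * pr k T R L p * Real.sin ((t + x * sp T) * Real.log p)

/-- A Dirichlet polynomial over primes with complex coefficients, on the critical line. -/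
noncomputable def DC (Q : Finset ℕ) (w : ℕ → ℂ) (t : ℝ) : ℂ :=
  ∑ p ∈ Q, w p * (p : ℂ) ^ (-((1 / 2 : ℂ) + (t : ℂ) * Complex.I))

/-- The coefficients for the family `F`. -/
noncomputable def wo (k T : ℝ) {R L : ℝ} (F : Fam R L) (p : ℕ) : ℂ :=
  -(Complex.I / Real.pi) * (pr k T R L p : ℂ) *
    EvC F fun x => Complex.exp (-((x * sp T * Real.log p : ℝ) : ℂ) * Complex.I)

/-- The prime sum for the family `F`. -/
noncomputable def Pf (k T : ℝ) {R L : ℝ} (F : Fam R L) (t : ℝ) : ℝ := (DC (QX (Xo k T R L)) (wo k T F) t).re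

/-- Its variance (twice). -/
noncomputable def Wf (k T : ℝ) {R L : ℝ} (F : Fam R L) : ℝ := ∑ p ∈ QX (Xo k T R L), ‖wo k T F p‖ ^ 2 / p

/-- The test sequence. -/
noncomputable def mt (k T R L : ℝ) (p : ℕ) : ℝ := 1 - max 0 (1 - Lf k R L * Real.log p / Real.log T) ^ 2

/-- The function `Ψ`, which is nearly `π/2` on `[R, L]`. -/
noncomputable def Psi (k T R L x : ℝ) : ℝ :=
  ∑ p ∈ QX (Xo k T R L), pr k T R L p * mt k T R L p * Real.sin (x * sp T * Real.log p) / p

end Pool.Agent.Helper62.OP
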