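import Pool.Agent.Helper62.OP.Defs

/-!
# OP: from families of closed intervals to order-connected sets
-/

set_option autoImplicit false
open MeasureTheory Set Filter Topology
open Pool.Agent.Helper57.Zeta Pool.Agent.Helper57.LH Pool.Agent.Helper57.ED
open Pool.Agent.Helper93.UG (zc sp)
open Pool.Agent.Helper57.NS (cnt)

namespace Pool.Agent.Helper62.OP

/-- counts agree if the sets agree on the heights of the zeros -/
theorem cnt_congr {T t : ℝ} {U V : Set ℝ} (h : ∀ ρ : ZS, ((ρ : ℂ).im - t) / sp T ∈ U ↔ ((ρ : ℂ).im - t) / sp T ∈ V) :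
    cnt T t U = cnt T t V := by
  unfold cnt zc
  have h1 : {ρ : ℂ | Pool.Agent.Helper57.PC.IsNontrivialZero ρ ∧ ρ.im ∈ {u : ℝ | (u - t) / sp T ∈ U}} =
      {ρ : ℂ | Pool.Agent.Helper57.PC.IsNontrivialZero ρ ∧ ρ.im ∈ {u : ℝ | (u - t) / sp T ∈ V}} := by
    ext ρ
    constructor
    · rintro ⟨h1, h2⟩
      exact ⟨h1, (h ⟨ρ, isNontrivialZero_iff.1 h1⟩).1 h2⟩
    · rintro ⟨h1, h2⟩
      exact ⟨h1, (h ⟨ρ, isNontrivialZero_iff.1 h1⟩).2 h2⟩
  rw [h1]

/-- the `t` for which a zero has the height `x` exactly -/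
theorem hit_null {T : ℝ} (hs : sp T ≠ 0) (x : ℝ) : volume {t : ℝ | ∃ ρ : ZS, ((ρ : ℂ).im - t) / sp T = x} = 0 := by
  have h1 : {t : ℝ | ∃ ρ : ZS, ((ρ : ℂ).im - t) / sp T = x} ⊆ Set.range fun ρ : ZS => (ρ : ℂ).im - x * sp T := by
    rintro t ⟨ρ, hρ⟩
    refine ⟨ρ, ?_⟩
    rw [div_eq_iff hs] at hρ
    simp only
    linarith
  exact measure_mono_null h1 ((Set.countable_range _).measure_zero volume)

/-- an order-connected set contains the open interval between its bounds -/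
theorem mem_iff_of {J : Set ℝ} (hJ : J.OrdConnected) (hne : J.Nonempty) (hb : BddBelow J) (ha : BddAbove J) {y : ℝ}
    (h1 : y ≠ sInf J) (h2 : y ≠ sSup J) : y ∈ J ↔ y ∈ Icc (sInf J) (sSup J) := by
  constructor
  · intro h
    exact ⟨csInf_le hb h, le_csSup ha h⟩
  · rintro ⟨h3, h4⟩
    obtain ⟨u, hu, hu'⟩ := exists_lt_of_csInf_lt hne (lt_of_le_of_ne h3 (Ne.symm h1))
    obtain ⟨v, hv, hv'⟩ := exists_lt_of_lt_csSup hne (lt_of_le_of_ne h4 h2)
    exact hJ.out hu hv ⟨hu'.le, hv'.le⟩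

/-- O13 over O12 -/
theorem core_of (hopt : ∀ d : ℝ, 0 < d → d ≤ 1 → ∃ c C T₀ : ℝ, 0 < c ∧ 1 ≤ C ∧ ∀ T R L e : ℝ, T₀ ≤ T → C ≤ L → Rng d T R L →
    d ≤ e → e ≤ 2 → ∀ (F : Fam R L) (A : ℝ), F.B ≤ L ^ c →
      ENNReal.ofReal ((L / R) ^ (-((1 + d) * e ^ 2)) * T) ≤ volume {t : ℝ | T ≤ t ∧ t ≤ 2 * T ∧ e < |St F T t - A|})
    {d : ℝ} (hd : 0 < d) (hd1 : d ≤ 1) : ∃ c C T₀ : ℝ, 0 < c ∧ 1 ≤ C ∧ ∀ T R L e : ℝ, T₀ ≤ T → C ≤ L → Rng d T R L →
    d ≤ e → e ≤ 2 → ∀ (n : ℕ) (J : Fin n → Set ℝ) (v : Fin n → ℝ) (A : ℝ), (∀ i, (J i).OrdConnected) →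
      (∀ i, ∀ x ∈ J i, R ≤ |x| ∧ |x| ≤ L) → ∑ i, |v i| ≤ L ^ c →
      ENNReal.ofReal ((L / R) ^ (-((1 + d) * e ^ 2)) * T) ≤
        volume {t : ℝ | T ≤ t ∧ t ≤ 2 * T ∧ e < |cnt T t (Icc (-R) R) + ∑ i, v i * cnt T t (J i) - A|} := by
  obtain ⟨c, C, T₀, hc, hC, H⟩ := hopt d hd hd1
  obtain ⟨C1, hC1⟩ : ∃ C1 : ℝ, ∀ L : ℝ, C1 ≤ L → 2 ≤ L ^ (c / 2) :=
    eventually_atTop.1 ((tendsto_rpow_atTop (show (0:ℝ) < c / 2 by linarith)).eventually_ge_atTop 2)
  refine ⟨c / 2, max C C1, max T₀ 3, by linarith, hC.trans (le_max_left _ _), ?_⟩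
  intro T R L e hT hL hR he he2 n J v A hJ hJR hv
  have hT0 : T₀ ≤ T := (le_max_left _ _).trans hT
  have hT3 : (3 : ℝ) ≤ T := (le_max_right _ _).trans hT
  have hLC : C ≤ L := (le_max_left _ _).trans hL
  have hL1 : 1 ≤ L := hC.trans hLC
  have hL2 : 2 ≤ L ^ (c / 2) := hC1 L ((le_max_right _ _).trans hL)
  have hLp : 0 < L := by linarith
  have hR0 : 0 < R := lt_of_lt_of_le (Real.rpow_pos_of_pos hLp d) hR.2.1
  have hRL : R ≤ L := by
    refine hR.2.2.trans ?_
    calc L ^ (1 - d) ≤ L ^ (1 : ℝ) := Real.rpow_le_rpow_of_exponent_le hL1 (by linarith)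
      _ = L := Real.rpow_one L
  have hs : sp T ≠ 0 := by
    unfold sp
    have := Real.log_pos (show (1:ℝ) < T by linarith)
    positivity
  -- one side
  have hside : ∀ i, (J i).Nonempty → (∀ x ∈ J i, R ≤ x ∧ x ≤ L) ∨ (∀ x ∈ J i, -L ≤ x ∧ x ≤ -R) := by
    rintro i ⟨x₀, hx₀⟩
    have h0 : (0 : ℝ) ∉ J i := by
      intro h
      have := (hJR i 0 h).1
      rw [abs_zero] at this
      linarith
    rcases lt_or_ge 0 x₀ with h | h
    · left
      intro x hx
      have hx0 : 0 < x := by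
        by_contra h1
        exact h0 ((hJ i).out hx hx₀ ⟨not_lt.1 h1, h.le⟩)
      have := hJR i x hx
      rwa [abs_of_pos hx0] at this
    · right
      intro x hx
      have hx0 : x < 0 := by
        by_contra h1
        exact h0 ((hJ i).out hx₀ hx ⟨h, not_lt.1 h1⟩)
      have := hJR i x hx
      rw [abs_of_neg hx0] at this
      constructor <;> linarith
  have hbb : ∀ i, BddBelow (J i) := fun i => ⟨-L, fun x hx => (abs_le.1 (hJR i x hx).2).1⟩
  have hba : ∀ i, BddAbove (J i) := fun i => ⟨L, fun x hx => (abs_le.1 (hJR i x hx).2).2⟩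
  classical
  let F : Fam R L :=
    { n := n
      a := fun i => if (J i).Nonempty then sInf (J i) else L
      b := fun i => if (J i).Nonempty then sSup (J i) else L
      c := fun i => if (J i).Nonempty then v i else 0
      le := by
        intro i
        by_cases h : (J i).Nonempty
        · rw [if_pos h, if_pos h]
          obtain ⟨x, hx⟩ := h
          exact (csInf_le (hbb i) hx).trans (le_csSup (hba i) hx)
        · rw [if_neg h, if_neg h]
      out := by
        intro i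
        by_cases h : (J i).Nonempty
        · rw [if_pos h, if_pos h]
          rcases hside i h with h1 | h1
          · right
            exact ⟨le_csInf h fun x hx => (h1 x hx).1, csSup_le h fun x hx => (h1 x hx).2⟩
          · left
            exact ⟨le_csInf h fun x hx => (h1 x hx).1, csSup_le h fun x hx => (h1 x hx).2⟩
        · rw [if_neg h, if_neg h]
          right
          exact ⟨hRL, le_rfl⟩ }
  have hB : F.B ≤ L ^ c := by
    have h1 : F.B ≤ 1 + ∑ i, |v i| := by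
      unfold Fam.B
      refine add_le_add le_rfl (Finset.sum_le_sum fun i _ => ?_)
      show |if (J i).Nonempty then v i else 0| ≤ |v i|
      split_ifs
      · exact le_rfl
      · rw [abs_zero]
        exact abs_nonneg _
    have h2 : L ^ c = L ^ (c / 2) * L ^ (c / 2) := by
      rw [← Real.rpow_add hLp]
      congr 1
      ring
    rw [h2]
    nlinarith
  have h1 := H T R L e hT0 hLC hR he he2 F A hB
  refine h1.trans ?_
  -- the null set
  set N : Set ℝ := (⋃ i, {t : ℝ | ∃ ρ : ZS, ((ρ : ℂ).im - t) / sp T = sInf (J i)}) ∪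
    ⋃ i, {t : ℝ | ∃ ρ : ZS, ((ρ : ℂ).im - t) / sp T = sSup (J i)} with hN
  have hN0 : volume N = 0 := by
    rw [hN]
    exact measure_union_null (measure_iUnion_null fun i => hit_null hs _) (measure_iUnion_null fun i => hit_null hs _)
  have hsub : {t : ℝ | T ≤ t ∧ t ≤ 2 * T ∧ e < |St F T t - A|} ⊆
      {t : ℝ | T ≤ t ∧ t ≤ 2 * T ∧ e < |cnt T t (Icc (-R) R) + ∑ i, v i * cnt T t (J i) - A|} ∪ N := by
    rintro t ⟨ht1, ht2, ht3⟩
    by_cases hn : t ∈ N
    · exact Or.inr hn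
    · left
      refine ⟨ht1, ht2, ?_⟩
      have h2 : St F T t = cnt T t (Icc (-R) R) + ∑ i, v i * cnt T t (J i) := by
        unfold St
        congr 1
        refine Finset.sum_congr rfl fun i _ => ?_
        show (if (J i).Nonempty then v i else 0) * cnt T t (Icc (if (J i).Nonempty then sInf (J i) else L)
          (if (J i).Nonempty then sSup (J i) else L)) = v i * cnt T t (J i)
        by_cases h : (J i).Nonempty
        · rw [if_pos h, if_pos h, if_pos h]
          congr 1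
          refine cnt_congr fun ρ => ?_
          refine (mem_iff_of (hJ i) h (hbb i) (hba i) ?_ ?_).symm
          · intro h3
            exact hn (Or.inl (mem_iUnion.2 ⟨i, ρ, h3⟩))
          · intro h3
            exact hn (Or.inr (mem_iUnion.2 ⟨i, ρ, h3⟩))
        · rw [if_neg h, if_neg h, if_neg h, zero_mul]
          have h3 : J i = ∅ := not_nonempty_iff_eq_empty.1 h
          rw [h3]
          unfold cnt zc
          simp
      rw [← h2]
      exact ht3
  calc volume {t : ℝ | T ≤ t ∧ t ≤ 2 * T ∧ e < |St F T t - A|}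
      ≤ volume ({t : ℝ | T ≤ t ∧ t ≤ 2 * T ∧ e < |cnt T t (Icc (-R) R) + ∑ i, v i * cnt T t (J i) - A|} ∪ N) :=
        measure_mono hsub
    _ ≤ volume {t : ℝ | T ≤ t ∧ t ≤ 2 * T ∧ e < |cnt T t (Icc (-R) R) + ∑ i, v i * cnt T t (J i) - A|} + volume N :=
        measure_union_le _ _
    _ = _ := by rw [hN0, add_zero]

end Pool.Agent.Helper62.OP
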