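import Pool.Agent.Helper62.OP.Core
import Pool.Agent.Helper62.OP.IncLoss
import Pool.Agent.Helper8.OP.StBdF
import Pool.Agent.Helper24.OP.Final
import Pool.Agent.Helper28.OP.Opt
import Pool.Agent.Helper44.OP.Wo
import Pool.Agent.Helper57.OP.Glue
import Pool.Agent.Helper69.OP.Step
import Pool.Agent.Helper93.OP.Prime

/-!
# OP: assembly of the optimality theorem
-/

set_option autoImplicit false
open MeasureTheory Set Filter Topology
open Pool.Agent.Helper57.NS (cnt)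

namespace Pool.Agent.Helper62.OP

/-- O12: the exponent is optimal, for families of closed intervals -/
theorem opt {d : ℝ} (hd : 0 < d) (hd1 : d ≤ 1) : ∃ c C T₀ : ℝ, 0 < c ∧ 1 ≤ C ∧ ∀ T R L e : ℝ, T₀ ≤ T → C ≤ L → Rng d T R L →
    d ≤ e → e ≤ 2 → ∀ (F : Fam R L) (A : ℝ), F.B ≤ L ^ c →
      ENNReal.ofReal ((L / R) ^ (-((1 + d) * e ^ 2)) * T) ≤ volume {t : ℝ | T ≤ t ∧ t ≤ 2 * T ∧ e < |St F T t - A|} :=
  Pool.Agent.Helper28.OP.opt_of (fun _ _ h1 h2 h3 h4 B hB => inc_loss h1 h2 h3 h4 B hB)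
    (fun _ _ h1 h2 h3 h4 B hB => Pool.Agent.Helper93.OP.inc_prime h1 h2 h3 h4 B hB)
    (fun _ h1 h2 e B he hB => Pool.Agent.Helper8.OP.st_bd h1 h2 e B he hB)
    (fun _ _ h1 h2 h3 h4 η e' h5 h6 h7 => step_st h1 h2 h3 h4 η e' h5 h6 h7)
    (fun _ _ _ _ F t => Pool.Agent.Helper44.OP.pf_eq F t)
    (fun _ _ _ h1 h2 F _ hg => Pool.Agent.Helper44.OP.ev_le h1 h2 F hg)
    (fun _ _ h1 h2 h3 h4 => Pool.Agent.Helper24.OP.pf_tail h1 h2 h3 h4) hd hd1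

/-- O13: the same for order-connected sets -/
theorem core {d : ℝ} (hd : 0 < d) (hd1 : d ≤ 1) : ∃ c C T₀ : ℝ, 0 < c ∧ 1 ≤ C ∧ ∀ T R L e : ℝ, T₀ ≤ T → C ≤ L → Rng d T R L →
    d ≤ e → e ≤ 2 → ∀ (n : ℕ) (J : Fin n → Set ℝ) (v : Fin n → ℝ) (A : ℝ), (∀ i, (J i).OrdConnected) →
      (∀ i, ∀ x ∈ J i, R ≤ |x| ∧ |x| ≤ L) → ∑ i, |v i| ≤ L ^ c →
      ENNReal.ofReal ((L / R) ^ (-((1 + d) * e ^ 2)) * T) ≤
        volume {t : ℝ | T ≤ t ∧ t ≤ 2 * T ∧ e < |cnt T t (Icc (-R) R) + ∑ i, v i * cnt T t (J i) - A|} :=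
  core_of (fun _ h1 h2 => opt h1 h2) hd hd1

/-- The optimality for combinations of indicators of intervals. -/
theorem core_main : Pool.Agent.Helper57.OP.Core := Pool.Agent.Helper57.OP.core_of fun _ h1 h2 => core h1 h2

end Pool.Agent.Helper62.OP
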